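import Pool.Agent.Helper36.RK.GoalsP

/-! # RK, NPSH: the Gram determinant is log-plurisubharmonic (packet RK-NPSH)

The proof is by duality: for fixed `a_j` the Gram determinant dominates
`|det tr (s_i a_j)|² / det (dual Gram matrix of the a_j)`, and the dual Gram matrix is a polynomial in the
frame. -/

open Complex Metric Set Filter Topology MeasureTheory Matrix
open scoped ContDiff ComplexConjugate ComplexOrder Manifold

namespace Pool.Agent.Helper79.RK

open Pool.Agent.Helper95.Lin Pool.Agent.Helper10.SP Pool.Agent.Helper95.RK Pool.Agent.Helper36.RK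

/-! ## Matrices -/

section mat

open scoped MatrixOrder in
/-- Factorization of a positive definite matrix. -/
lemma factor {n : ℕ} {A : Matrix (Fin n) (Fin n) ℂ} (hA : A.PosDef) :
    ∃ C : Matrix (Fin n) (Fin n) ℂ, IsUnit C ∧ A = Cᴴ * C := by
  obtain ⟨C, hC, h⟩ := CStarAlgebra.isStrictlyPositive_iff_eq_star_mul_self.mp
    hA.isStrictlyPositive
  exact ⟨C, hC, by rw [h, star_eq_conjTranspose]⟩

/-- The inequality of the arithmetic and geometric means. -/
lemma logdet_le {n : ℕ} {P : Matrix (Fin n) (Fin n) ℂ} (hP : P.PosDef) :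
    Real.log ‖P.det‖ ≤ P.trace.re - n := by
  have h1 : P.det = ∏ i, ((hP.isHermitian.eigenvalues i : ℝ) : ℂ) :=
    hP.isHermitian.det_eq_prod_eigenvalues
  have h2 : P.trace = ∑ i, ((hP.isHermitian.eigenvalues i : ℝ) : ℂ) :=
    hP.isHermitian.trace_eq_sum_eigenvalues
  have h3 : ∀ i, 0 < hP.isHermitian.eigenvalues i := fun i => hP.eigenvalues_pos i
  rw [h1, h2, norm_prod, Real.log_prod (fun i _ => by
    rw [Complex.norm_real, Real.norm_eq_abs, abs_of_pos (h3 i)]; exact (h3 i).ne')]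
  rw [← Complex.ofReal_sum, Complex.ofReal_re]
  have h4 : ∀ i, Real.log ‖((hP.isHermitian.eigenvalues i : ℝ) : ℂ)‖ ≤
      hP.isHermitian.eigenvalues i - 1 := by
    intro i
    rw [Complex.norm_real, Real.norm_eq_abs, abs_of_pos (h3 i)]
    exact Real.log_le_sub_one_of_pos (h3 i)
  calc ∑ i, Real.log ‖((hP.isHermitian.eigenvalues i : ℝ) : ℂ)‖ ≤
      ∑ i, (hP.isHermitian.eigenvalues i - 1) := Finset.sum_le_sum fun i _ => h4 i
    _ = ∑ i, hP.isHermitian.eigenvalues i - n := by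
      rw [Finset.sum_sub_distrib]; simp

/-- The inequality between the determinants. -/
lemma det_ineq {m : ℕ} {N T : Matrix (Fin m) (Fin m) ℂ} (hN : N.PosDef) (hT : T.det ≠ 0)
    (M : Fin m → ℝ) (h : ∀ j, ((Tᴴ * N⁻¹ * T) j j).re ≤ M j) :
    2 * Real.log ‖T.det‖ - Real.log ‖N.det‖ ≤ ∑ j, M j - m := by
  have hTu : IsUnit T := (Matrix.isUnit_iff_isUnit_det _).2 (isUnit_iff_ne_zero.2 hT)
  have hP : (Tᴴ * N⁻¹ * T).PosDef := by
    refine hN.inv.conjTranspose_mul_mul_same ?_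
    exact Matrix.mulVec_injective_iff_isUnit.2 hTu
  have h1 := logdet_le hP
  have hNd : N.det ≠ 0 := (hN.det_pos).ne'
  have h2 : ‖(Tᴴ * N⁻¹ * T).det‖ = ‖T.det‖ ^ 2 * ‖N.det‖⁻¹ := by
    rw [Matrix.det_mul, Matrix.det_mul, Matrix.det_conjTranspose, Matrix.det_nonsing_inv,
      norm_mul, norm_mul, norm_star, Ring.inverse_eq_inv', norm_inv]
    ring
  rw [h2, Real.log_mul (pow_ne_zero _ (norm_ne_zero_iff.2 hT))
    (inv_ne_zero (norm_ne_zero_iff.2 hNd)), Real.log_pow, Real.log_inv] at h1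
  have h3 : (Tᴴ * N⁻¹ * T).trace.re ≤ ∑ j, M j := by
    rw [Matrix.trace, Complex.re_sum]
    exact Finset.sum_le_sum fun j _ => h j
  push_cast at h1
  linarith

end mat

/-! ## The form `hs` -/

section hsform

variable {k m : ℕ}

lemma cj_mul {a b c : Type*} [Fintype b] (A : Matrix a b ℂ) (B : Matrix b c ℂ) :
    cj (A * B) = cj A * cj B := by
  unfold cj
  exact Matrix.map_mul

lemma cj_add {a b : Type*} (A B : Matrix a b ℂ) : cj (A + B) = cj A + cj B := by
  ext i j; simp [cj]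

lemma cj_sub {a b : Type*} (A B : Matrix a b ℂ) : cj (A - B) = cj A - cj B := by
  ext i j; simp [cj]

lemma cj_smul {a b : Type*} (c : ℂ) (A : Matrix a b ℂ) : cj (c • A) = conj c • cj A := by
  ext i j; simp [cj]

lemma cj_sum {a b ι : Type*} (t : Finset ι) (A : ι → Matrix a b ℂ) :
    cj (∑ i ∈ t, A i) = ∑ i ∈ t, cj (A i) := by
  ext i j
  simp [cj, Matrix.sum_apply, map_sum]

lemma cj_cj {a b : Type*} (A : Matrix a b ℂ) : cj (cj A) = A := by
  ext i j; simp [cj]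

lemma cj_transpose {a b : Type*} (A : Matrix a b ℂ) : cj Aᵀ = (cj A)ᵀ := rfl

lemma cj_one {a : Type*} [DecidableEq a] : cj (1 : Matrix a a ℂ) = 1 := by
  ext i j
  simp [cj, Matrix.one_apply, apply_ite]

lemma cj_zero {a b : Type*} : cj (0 : Matrix a b ℂ) = 0 := by
  ext i j; simp [cj]

lemma conjTranspose_eq {a b : Type*} (A : Matrix a b ℂ) : Aᴴ = (cj A)ᵀ := rfl

lemma hs_sum_left (H t : Matrix (Fin k) (Fin k) ℂ) (c : Fin m → ℂ)
    (s : Fin m → Matrix (Fin k) (Fin k) ℂ) :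
    hs H (∑ i, c i • s i) t = ∑ i, c i * hs H (s i) t := by
  simp only [hs, Finset.sum_mul, Matrix.smul_mul, Matrix.trace_sum, Matrix.trace_smul, smul_eq_mul]

lemma hs_sum_right (H t : Matrix (Fin k) (Fin k) ℂ) (c : Fin m → ℂ)
    (s : Fin m → Matrix (Fin k) (Fin k) ℂ) :
    hs H t (∑ i, c i • s i) = ∑ i, conj (c i) * hs H t (s i) := by
  simp only [hs, cj_sum, cj_smul, Finset.mul_sum, Finset.sum_mul, Matrix.smul_mul, Matrix.mul_smul,
    Matrix.trace_sum, Matrix.trace_smul, smul_eq_mul]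

lemma hs_sub_left (H s s' t : Matrix (Fin k) (Fin k) ℂ) :
    hs H (s - s') t = hs H s t - hs H s' t := by
  simp only [hs, Matrix.sub_mul, Matrix.trace_sub]

lemma hs_sub_right (H s s' t : Matrix (Fin k) (Fin k) ℂ) :
    hs H t (s - s') = hs H t s - hs H t s' := by
  simp only [hs, cj_sub, Matrix.sub_mul, Matrix.mul_sub, Matrix.trace_sub]

lemma sum_symm {s : Fin m → Matrix (Fin k) (Fin k) ℂ} (hs' : ∀ i, (s i)ᵀ = s i) (c : Fin m → ℂ) :
    (∑ i, c i • s i)ᵀ = ∑ i, c i • s i := by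
  rw [Matrix.transpose_sum]
  exact Finset.sum_congr rfl fun i _ => by rw [Matrix.transpose_smul, hs' i]

/-- The Gram matrix. -/
noncomputable def gm (H : Matrix (Fin k) (Fin k) ℂ) (s : Fin m → Matrix (Fin k) (Fin k) ℂ) :
    Matrix (Fin m) (Fin m) ℂ := Matrix.of fun i j => hs H (s i) (s j)

lemma gram_eq (H : Matrix (Fin k) (Fin k) ℂ) (s : Fin m → Matrix (Fin k) (Fin k) ℂ) :
    gram H s = (gm H s).det := rfl

lemma gm_psd (hHSP : S_HSP) {H : Matrix (Fin k) (Fin k) ℂ} (hH : H.PosDef)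
    {s : Fin m → Matrix (Fin k) (Fin k) ℂ} (hs' : ∀ i, (s i)ᵀ = s i) : (gm H s).PosSemidef := by
  obtain ⟨h1, h2, -, -⟩ := hHSP H hH
  refine Matrix.PosSemidef.of_dotProduct_mulVec_nonneg ?_ ?_
  · ext i j
    rw [Matrix.conjTranspose_apply]
    simp only [gm, Matrix.of_apply]
    exact (h1 (s j) (s i) (hs' j) (hs' i)).symm
  · intro x
    have h3 : star x ⬝ᵥ (gm H s) *ᵥ x =
        hs H (∑ i, (conj (x i)) • s i) (∑ i, (conj (x i)) • s i) := by
      rw [hs_sum_left]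
      simp only [hs_sum_right, dotProduct, Matrix.mulVec, gm, Matrix.of_apply, Pi.star_apply,
        Complex.conj_conj]
      refine Finset.sum_congr rfl fun i _ => ?_
      congr 1
      exact Finset.sum_congr rfl fun j _ => by ring
    rw [h3]
    obtain ⟨h4, h5, -⟩ := h2 _ (sum_symm hs' fun i => conj (x i))
    rw [Complex.nonneg_iff]
    exact ⟨h5, h4.symm⟩

/-- The inequality between the Gram determinant and the dual Gram matrix. -/
lemma key (hHSP : S_HSP) {K : Matrix (Fin k) (Fin k) ℂ} (hK : K.PosDef)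
    {s a : Fin m → Matrix (Fin k) (Fin k) ℂ} (hs' : ∀ i, (s i)ᵀ = s i) (ha : ∀ i, (a i)ᵀ = a i)
    (hT : (Matrix.of fun i j => (s i * a j).trace).det ≠ 0) :
    gram K⁻¹ s ≠ 0 ∧
    2 * Real.log ‖(Matrix.of fun i j => (s i * a j).trace).det‖ - Real.log ‖gram K⁻¹ s‖ ≤
      ∑ j, (a j * Kᵀ * cj (a j) * K).trace.re - m := by
  set T : Matrix (Fin m) (Fin m) ℂ := Matrix.of fun i j => (s i * a j).trace with hTdef
  have hH : (K⁻¹).PosDef := hK.inv
  obtain ⟨h1, h2, -, h4⟩ := hHSP K⁻¹ hH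
  have hKu : IsUnit K.det := isUnit_iff_ne_zero.2 hK.det_pos.ne'
  have hHK : K⁻¹ * K = 1 := Matrix.nonsing_inv_mul K hKu
  have hKH : K * K⁻¹ = 1 := Matrix.mul_nonsing_inv K hKu
  have hKH' : Kᵀ * (K⁻¹)ᵀ = 1 := by rw [← Matrix.transpose_mul, hHK, Matrix.transpose_one]
  have hKherm : (cj K)ᵀ = K := hK.isHermitian
  have hKherm' : cj K = Kᵀ := by
    rw [← Matrix.transpose_transpose (cj K), hKherm]
  -- the dual vectors
  set bb : Fin m → Matrix (Fin k) (Fin k) ℂ := fun j => Kᵀ * cj (a j) * K with hbb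
  have hcbb : ∀ j, cj (bb j) = K * a j * Kᵀ := by
    intro j
    simp only [hbb, cj_mul, cj_cj, cj_transpose]
    rw [hKherm, hKherm']
  have hbbs : ∀ j, (bb j)ᵀ = bb j := by
    intro j
    simp only [hbb, Matrix.transpose_mul, Matrix.transpose_transpose]
    rw [← cj_transpose, ha j, Matrix.mul_assoc]
  have hsT : ∀ (t : Matrix (Fin k) (Fin k) ℂ) j, hs K⁻¹ t (bb j) = (t * a j).trace := by
    intro t j
    unfold hs
    rw [hcbb j]
    have : t * K⁻¹ * (K * a j * Kᵀ) * (K⁻¹)ᵀ = t * (K⁻¹ * K) * a j * (Kᵀ * (K⁻¹)ᵀ) := by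
      simp only [Matrix.mul_assoc]
    rw [this, hHK, hKH', Matrix.mul_one, Matrix.mul_one]
  -- positivity of the Gram matrix
  have hNpsd := gm_psd hHSP hH hs'
  have hli : LinearIndependent ℂ s := by
    rw [Fintype.linearIndependent_iff]
    intro g hg
    have h5 : g ᵥ* T = 0 := by
      ext j
      have : (g ᵥ* T) j = ((∑ i, g i • s i) * a j).trace := by
        rw [Finset.sum_mul, Matrix.trace_sum]
        simp [Matrix.vecMul, dotProduct, hTdef, Matrix.trace_smul]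
      rw [this, hg, Matrix.zero_mul, Matrix.trace_zero]; rfl
    have h6 := Matrix.eq_zero_of_vecMul_eq_zero hT h5
    intro i
    exact congrFun h6 i
  have hNd : (gm K⁻¹ s).det ≠ 0 := (h4 s hs').2.2.2 hli
  have hN : (gm K⁻¹ s).PosDef := hNpsd.posDef_iff_det_ne_zero.2 hNd
  refine ⟨hNd, ?_⟩
  rw [gram_eq]
  refine det_ineq hN hT _ ?_
  intro j
  -- the projection
  set d : Fin m → ℂ := fun i => ((gm K⁻¹ s)⁻¹ * T) i j with hd
  have hNd' : ∀ i, ∑ l, hs K⁻¹ (s i) (s l) * d l = T i j := by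
    intro i
    have : ((gm K⁻¹ s) * ((gm K⁻¹ s)⁻¹ * T)) i j = T i j := by
      rw [← Matrix.mul_assoc, Matrix.mul_nonsing_inv _ (isUnit_iff_ne_zero.2 hNd), Matrix.one_mul]
    rw [← this, Matrix.mul_apply]
    rfl
  set S : Matrix (Fin k) (Fin k) ℂ := ∑ i, conj (d i) • s i with hS
  have hSs : Sᵀ = S := sum_symm hs' _
  have hws : (bb j - S)ᵀ = bb j - S := by rw [Matrix.transpose_sub, hbbs, hSs]
  obtain ⟨-, hpos, -⟩ := h2 _ hws
  have e1 : hs K⁻¹ S S = ∑ i, conj (d i) * T i j := by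
    rw [hS, hs_sum_left]
    refine Finset.sum_congr rfl fun i _ => ?_
    rw [← hNd' i, hs_sum_right]
    congr 1
    exact Finset.sum_congr rfl fun l _ => by rw [Complex.conj_conj]; ring
  have e2 : hs K⁻¹ S (bb j) = ∑ i, conj (d i) * T i j := by
    rw [hS, hs_sum_left]
    exact Finset.sum_congr rfl fun i _ => by rw [hsT]; rfl
  have e3 : hs K⁻¹ (bb j) S = ∑ i, d i * conj (T i j) := by
    rw [h1 S (bb j) hSs (hbbs j), e2, map_sum]
    exact Finset.sum_congr rfl fun i _ => by rw [map_mul, Complex.conj_conj]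
  have e4 : hs K⁻¹ (bb j) (bb j) = (a j * Kᵀ * cj (a j) * K).trace := by
    rw [hsT]
    simp only [hbb]
    rw [Matrix.trace_mul_comm, ← Matrix.mul_assoc, ← Matrix.mul_assoc]
  rw [hs_sub_left, hs_sub_right, hs_sub_right, e1, e2, e3, e4] at hpos
  have e5 : (Tᴴ * (gm K⁻¹ s)⁻¹ * T) j j = ∑ i, d i * conj (T i j) := by
    rw [Matrix.mul_assoc, Matrix.mul_apply]
    exact Finset.sum_congr rfl fun i _ => by
      rw [Matrix.conjTranspose_apply, mul_comm]; rfl
  rw [e5]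
  have : (((a j * Kᵀ * cj (a j) * K).trace - ∑ i, d i * conj (T i j)) -
      (∑ i, conj (d i) * T i j - ∑ i, conj (d i) * T i j)) =
      (a j * Kᵀ * cj (a j) * K).trace - ∑ i, d i * conj (T i j) := by ring
  rw [this, Complex.sub_re] at hpos
  linarith

end hsform

/-! ## Taylor expansions -/

lemma tay {f : ℂ → ℂ} (hf : ∀ᶠ ζ in 𝓝 (0 : ℂ), DifferentiableAt ℂ f ζ) :
    ∃ F : ℂ → ℂ, ContinuousAt F 0 ∧ ∀ ζ, f ζ = f 0 + ζ * deriv f 0 + ζ ^ 2 * F ζ := by
  obtain ⟨U, hU, hUo, h0⟩ := _root_.eventually_nhds_iff.1 hf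
  have hUn : U ∈ 𝓝 (0 : ℂ) := hUo.mem_nhds h0
  have hd : DifferentiableOn ℂ f U := fun x hx => (hU x hx).differentiableWithinAt
  have hd1 : DifferentiableOn ℂ (dslope f 0) U := (Complex.differentiableOn_dslope hUn).2 hd
  have hd2 : DifferentiableOn ℂ (dslope (dslope f 0) 0) U :=
    (Complex.differentiableOn_dslope hUn).2 hd1
  refine ⟨dslope (dslope f 0) 0, (hd2.differentiableAt hUn).continuousAt, fun ζ => ?_⟩
  have h1 : ζ * dslope f 0 ζ = f ζ - f 0 := by
    have := sub_smul_dslope f 0 ζ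
    simpa [smul_eq_mul] using this
  have h2 : ζ * dslope (dslope f 0) 0 ζ = dslope f 0 ζ - deriv f 0 := by
    have := sub_smul_dslope (dslope f 0) 0 ζ
    simpa [smul_eq_mul, dslope_same] using this
  calc f ζ = f 0 + ζ * dslope f 0 ζ := by rw [h1]; ring
    _ = f 0 + ζ * (deriv f 0 + ζ * dslope (dslope f 0) 0 ζ) := by rw [h2]; ring
    _ = _ := by ring

/-- The four points. -/
noncomputable def om (j : Fin 4) : ℂ := I ^ (j : ℕ)

lemma om_sum : ∑ j, om j = 0 := by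
  simp [Fin.sum_univ_four, om, pow_succ]

lemma om_sum_sq : ∑ j, om j ^ 2 = 0 := by
  simp only [Fin.sum_univ_four, om]
  simp [pow_succ]

lemma om_conj (j : Fin 4) : conj (om j) * om j = 1 := by
  fin_cases j <;> simp [om, pow_succ]

lemma om_sum_csq : ∑ j, conj (om j) ^ 2 = 0 := by
  have := congrArg conj om_sum_sq
  simpa [map_sum] using this

/-- The sum of the logarithm of a holomorphic function over the four points. -/
lemma log_sum {g : ℂ → ℂ} (hg : ∀ᶠ ζ in 𝓝 (0 : ℂ), DifferentiableAt ℂ g ζ) (h0 : g 0 = 1) :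
    Tendsto (fun r : ℝ => (∑ j, 2 * Real.log ‖g (r * om j)‖) / r ^ 2) (𝓝[>] 0) (𝓝 0) := by
  have hc : ContinuousAt g 0 := (hg.self_of_nhds).continuousAt
  have hsl : ∀ᶠ ζ in 𝓝 (0 : ℂ), g ζ ∈ Complex.slitPlane := by
    have : g 0 ∈ Complex.slitPlane := by rw [h0]; exact Complex.one_mem_slitPlane
    exact hc.eventually (Complex.isOpen_slitPlane.mem_nhds this)
  have hl : ∀ᶠ ζ in 𝓝 (0 : ℂ), DifferentiableAt ℂ (fun ζ => Complex.log (g ζ)) ζ := by
    filter_upwards [hg, hsl] with ζ h1 h2 using h1.clog h2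
  obtain ⟨F, hF, hFe⟩ := tay hl
  simp only [h0, Complex.log_one, zero_add] at hFe
  set c := deriv (fun ζ => Complex.log (g ζ)) 0 with hc'
  have hlog : ∀ ζ, Real.log ‖g ζ‖ = (Complex.log (g ζ)).re := fun ζ => (Complex.log_re _).symm
  have hev : ∀ᶠ r : ℝ in 𝓝[>] 0, (∑ j, 2 * Real.log ‖g (r * om j)‖) / r ^ 2 =
      2 * (∑ j, om j ^ 2 * F (r * om j)).re := by
    filter_upwards [self_mem_nhdsWithin] with r hr
    have hr0 : (r : ℝ) ≠ 0 := ne_of_gt hr
    have h1 : ∑ j, Real.log ‖g (r * om j)‖ = r ^ 2 * (∑ j, om j ^ 2 * F (r * om j)).re := by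
      have : ∑ j, Complex.log (g (r * om j)) =
          ((r ^ 2 : ℝ) : ℂ) * ∑ j, om j ^ 2 * F (r * om j) := by
        calc ∑ j, Complex.log (g (r * om j)) =
            ∑ j, (r * c * om j + ((r ^ 2 : ℝ) : ℂ) * (om j ^ 2 * F (r * om j))) :=
              Finset.sum_congr rfl fun j _ => by rw [hFe]; push_cast; ring
          _ = r * c * ∑ j, om j + ((r ^ 2 : ℝ) : ℂ) * ∑ j, om j ^ 2 * F (r * om j) := by
              rw [Finset.sum_add_distrib, Finset.mul_sum, Finset.mul_sum]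
          _ = _ := by rw [om_sum]; ring
      have h2 := congrArg Complex.re this
      rw [Complex.re_ofReal_mul, Complex.re_sum] at h2
      rw [← h2]
      exact Finset.sum_congr rfl fun j _ => hlog _
    have hr2 : (r : ℝ) ^ 2 ≠ 0 := pow_ne_zero _ hr0
    rw [← Finset.mul_sum, h1, mul_div_assoc, mul_div_cancel_left₀ _ hr2]
  rw [tendsto_congr' hev]
  have hlim : Tendsto (fun r : ℝ => ∑ j, om j ^ 2 * F (r * om j)) (𝓝[>] 0)
      (𝓝 (∑ j, om j ^ 2 * F 0)) := by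
    refine tendsto_finsetSum _ fun j _ => Tendsto.const_mul _ ?_
    have h3 : Tendsto (fun r : ℝ => (r : ℂ) * om j) (𝓝[>] 0) (𝓝 0) := by
      have : Continuous fun r : ℝ => (r : ℂ) * om j := by fun_prop
      have h4 := (this.tendsto 0).mono_left (nhdsWithin_le_nhds (s := Ioi (0 : ℝ)))
      simpa using h4
    exact hF.tendsto.comp h3
  rw [← Finset.sum_mul, om_sum_sq, zero_mul] at hlim
  have := (Complex.continuous_re.tendsto _).comp hlim
  have h5 := this.const_mul 2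
  simpa using h5

/-- The second difference of a smooth function. -/
lemma u_sum {b : ℕ} {D : Set (Cn b)} (hD : IsOpen D) {U : Cn b → ℝ} (hU : ContDiffOn ℝ ∞ U D)
    {z e : Cn b} (hz : z ∈ D) (hl : lev U z e = 0) :
    Tendsto (fun r : ℝ => (∑ j, U (z + ((r : ℂ) * om j) • e) - 4 * U z) / r ^ 2) (𝓝[>] 0)
      (𝓝 0) := by
  have hUd : DifferentiableOn ℝ U D := hU.differentiableOn (by simp)
  have hU1 : ∀ v, DifferentiableAt ℝ (fun y => fderiv ℝ U y v) z := by
    intro v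
    have h1 : ContDiffOn ℝ 1 (fderiv ℝ U) D := (hU.of_le (m := 2) (by
      exact WithTop.coe_le_coe.2 (le_top : (2 : ℕ∞) ≤ ⊤))).fderiv_of_isOpen hD (by norm_num)
    have h2 : DifferentiableAt ℝ (fderiv ℝ U) z :=
      (h1.differentiableOn (by simp)).differentiableAt (hD.mem_nhds hz)
    exact h2.clm_apply (differentiableAt_const v)
  -- derivatives along lines
  have hline : ∀ v : Cn b, ∀ᶠ r : ℝ in 𝓝 0, HasDerivAt (fun t : ℝ => U (z + t • v))
      (fderiv ℝ U (z + r • v) v) r := by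
    intro v
    have hc : Continuous fun t : ℝ => z + t • v := by fun_prop
    have hn : ∀ᶠ r : ℝ in 𝓝 0, z + r • v ∈ D := by
      have : D ∈ 𝓝 (z + (0 : ℝ) • v) := by simpa using hD.mem_nhds hz
      exact (hc.tendsto 0).eventually this
    filter_upwards [hn] with r hr
    have h1 : HasFDerivAt U (fderiv ℝ U (z + r • v)) (z + r • v) :=
      (hUd.differentiableAt (hD.mem_nhds hr)).hasFDerivAt
    have h2 : HasDerivAt (fun t : ℝ => z + t • v) v r := by
      simpa using ((hasDerivAt_id r).smul_const v).const_add z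
    exact h1.comp_hasDerivAt r h2
  have hslope : ∀ v : Cn b, Tendsto (fun r : ℝ => (fderiv ℝ U (z + r • v) v -
      fderiv ℝ U z v) / r) (𝓝[>] 0) (𝓝 (hess U z v v)) := by
    intro v
    have h1 : HasFDerivAt (fun y => fderiv ℝ U y v) (fderiv ℝ (fun y => fderiv ℝ U y v) z) z :=
      (hU1 v).hasFDerivAt
    have h2 : HasDerivAt (fun t : ℝ => z + t • v) v 0 := by
      simpa using ((hasDerivAt_id (0 : ℝ)).smul_const v).const_add z
    have h3 : HasDerivAt (fun t : ℝ => fderiv ℝ U (z + t • v) v)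
        (fderiv ℝ (fun y => fderiv ℝ U y v) z v) 0 := by
      have h1' : HasFDerivAt (fun y => fderiv ℝ U y v) (fderiv ℝ (fun y => fderiv ℝ U y v) z)
        (z + (0 : ℝ) • v) := by simpa using h1
      exact h1'.comp_hasDerivAt (0 : ℝ) h2
    have h4 := h3.tendsto_slope_zero_right
    refine h4.congr' ?_
    filter_upwards with r
    simp [div_eq_inv_mul]
  have hneg : ∀ v : Cn b, hess U z (-v) (-v) = hess U z v v := by
    intro v
    unfold hess
    have : (fun y => fderiv ℝ U y (-v)) = fun y => - fderiv ℝ U y v := by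
      funext y; simp
    rw [this]
    have h6 : fderiv ℝ (fun y => - fderiv ℝ U y v) z = - fderiv ℝ (fun y => fderiv ℝ U y v) z :=
      fderiv_fun_neg
    rw [h6]
    simp
  -- the two directions
  have hpt : ∀ r : ℝ, ∑ j, U (z + ((r : ℂ) * om j) • e) =
      U (z + r • e) + U (z + r • (I • e)) + U (z + r • (-e)) + U (z + r • (-(I • e))) := by
    intro r
    have c1 : ((r : ℂ) * om 0) • e = r • e := by
      ext i; simp [om]
    have c2 : ((r : ℂ) * om 1) • e = r • (I • e) := by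
      ext i; simp [om]; ring
    have c3 : ((r : ℂ) * om 2) • e = r • (-e) := by
      ext i; simp [om]
    have c4 : ((r : ℂ) * om 3) • e = r • (-(I • e)) := by
      ext i; simp [om, pow_succ]; ring
    rw [Fin.sum_univ_four, c1, c2, c3, c4]
  simp only [hpt]
  set f : ℝ → ℝ := fun r => U (z + r • e) + U (z + r • (I • e)) + U (z + r • (-e)) +
    U (z + r • (-(I • e))) - 4 * U z with hf
  set f' : ℝ → ℝ := fun r => fderiv ℝ U (z + r • e) e + fderiv ℝ U (z + r • (I • e)) (I • e) +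
    fderiv ℝ U (z + r • (-e)) (-e) + fderiv ℝ U (z + r • (-(I • e))) (-(I • e)) with hf'
  refine HasDerivAt.lhopital_zero_nhdsGT (f := f) (f' := f') (g := fun r : ℝ => r ^ 2)
    (g' := fun r : ℝ => 2 * r) ?_ ?_ ?_ ?_ ?_ ?_
  · have h7 : ∀ᶠ r : ℝ in 𝓝 0, HasDerivAt f (f' r) r := by
      filter_upwards [hline e, hline (I • e), hline (-e), hline (-(I • e))] with r h1 h2 h3 h4
      exact (((h1.add h2).add h3).add h4).sub_const _
    exact h7.filter_mono nhdsWithin_le_nhds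
  · refine Eventually.of_forall fun r => ?_
    simpa using hasDerivAt_pow 2 r
  · filter_upwards [self_mem_nhdsWithin] with r hr
    exact mul_ne_zero two_ne_zero (ne_of_gt hr)
  · have h8 : ContinuousAt f 0 := by
      have h7 : HasDerivAt f (f' 0) 0 := by
        exact ((((hline e).self_of_nhds.add (hline (I • e)).self_of_nhds).add
          (hline (-e)).self_of_nhds).add (hline (-(I • e))).self_of_nhds).sub_const _
      exact h7.continuousAt
    have h9 : f 0 = 0 := by simp [hf]; ring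
    have := h8.tendsto.mono_left (nhdsWithin_le_nhds (s := Ioi (0 : ℝ)))
    rwa [h9] at this
  · have : Continuous fun r : ℝ => r ^ 2 := by fun_prop
    have h4 := (this.tendsto 0).mono_left (nhdsWithin_le_nhds (s := Ioi (0 : ℝ)))
    simpa using h4
  · have h9 := ((((hslope e).add (hslope (I • e))).add (hslope (-e))).add
      (hslope (-(I • e)))).const_mul (1 / 2)
    rw [hneg, hneg] at h9
    have h10 : 1 / 2 * (hess U z e e + hess U z (I • e) (I • e) + hess U z e e +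
        hess U z (I • e) (I • e)) = 0 := by
      have : hess U z e e + hess U z (I • e) (I • e) = 0 := hl
      linarith
    rw [h10] at h9
    refine h9.congr' ?_
    filter_upwards [self_mem_nhdsWithin] with r hr
    have hr0 : (r : ℝ) ≠ 0 := ne_of_gt hr
    simp only [hf', map_neg]
    field_simp
    ring

/-! ## The expansion of the metric -/

section expan

variable {k m : ℕ}

/-- The second order term of the inverse metric. -/
noncomputable def kap (Om : Matrix (Fin (2 * k)) (Fin (2 * k)) ℝ)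
    (L0 L1 : Matrix (Fin k) (Fin (2 * k)) ℂ) (w : ℂ) (x : ℂ × Matrix (Fin k) (Fin (2 * k)) ℂ) :
    Matrix (Fin k) (Fin k) ℂ :=
  (1 / (2 * I) : ℂ) • (cj L1 * toC Om * L1ᵀ + w ^ 2 • (cj L0 * toC Om * x.2ᵀ) +
    (conj w) ^ 2 • (cj x.2 * toC Om * L0ᵀ) + (x.1 * w) • (cj L1 * toC Om * x.2ᵀ) +
    (x.1 * conj w) • (cj x.2 * toC Om * L1ᵀ) + (x.1 ^ 2) • (cj x.2 * toC Om * x.2ᵀ))

lemma kap_cont (Om : Matrix (Fin (2 * k)) (Fin (2 * k)) ℝ)
    (L0 L1 : Matrix (Fin k) (Fin (2 * k)) ℂ) (w : ℂ) : Continuous (kap Om L0 L1 w) := by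
  have hcj : Continuous fun x : ℂ × Matrix (Fin k) (Fin (2 * k)) ℂ => cj x.2 :=
    continuous_snd.matrix_map Complex.continuous_conj
  unfold kap
  fun_prop

lemma hiM_expand {Om : Matrix (Fin (2 * k)) (Fin (2 * k)) ℝ}
    {L0 L1 : Matrix (Fin k) (Fin (2 * k)) ℂ} (R : Matrix (Fin k) (Fin (2 * k)) ℂ) {w : ℂ}
    (hw : conj w * w = 1) (r : ℝ) (h00 : hiM L0 Om = 1) (h01 : cj L0 * toC Om * L1ᵀ = 0)
    (h10 : cj L1 * toC Om * L0ᵀ = 0) :
    hiM (L0 + ((r : ℂ) * w) • L1 + ((r : ℂ) * w) ^ 2 • R) Om =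
      1 + ((r : ℂ) ^ 2) • kap Om L0 L1 w ((r : ℂ), R) := by
  rw [← h00]
  unfold hiM kap
  simp only [cj_add, cj_smul, map_mul, map_pow, Complex.conj_ofReal, Matrix.transpose_add,
    Matrix.transpose_smul, Matrix.add_mul, Matrix.mul_add, Matrix.smul_mul, Matrix.mul_smul,
    smul_smul, h01, h10, smul_zero, add_zero, zero_add]
  ext p q
  simp only [Matrix.add_apply, Matrix.smul_apply, smul_eq_mul]
  linear_combination ((1 / (2 * I) : ℂ) * (r : ℂ) ^ 2 * (cj L1 * toC Om * L1ᵀ) p q +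
    (1 / (2 * I) : ℂ) * (r : ℂ) ^ 3 * w * (cj L1 * toC Om * Rᵀ) p q +
    (1 / (2 * I) : ℂ) * (r : ℂ) ^ 3 * conj w * (cj R * toC Om * L1ᵀ) p q +
    (1 / (2 * I) : ℂ) * (r : ℂ) ^ 4 * (conj w * w + 1) * (cj R * toC Om * Rᵀ) p q) * hw

/-- The trace of the dual Gram matrix. -/
noncomputable def mu (a : Fin m → Matrix (Fin k) (Fin k) ℂ) (x : ℂ × Matrix (Fin k) (Fin k) ℂ) :
    ℂ := ∑ j, ((a j * x.2ᵀ * cj (a j)).trace + (a j * cj (a j) * x.2).trace +
      x.1 ^ 2 * (a j * x.2ᵀ * cj (a j) * x.2).trace)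

lemma mu_cont (a : Fin m → Matrix (Fin k) (Fin k) ℂ) : Continuous (mu a) := by
  unfold mu
  fun_prop

lemma mu_expand (a : Fin m → Matrix (Fin k) (Fin k) ℂ) (r : ℂ) (κ : Matrix (Fin k) (Fin k) ℂ) :
    ∑ j, (a j * (1 + r ^ 2 • κ)ᵀ * cj (a j) * (1 + r ^ 2 • κ)).trace =
      ∑ j, (a j * cj (a j)).trace + r ^ 2 * mu a (r, κ) := by
  unfold mu
  rw [Finset.mul_sum, ← Finset.sum_add_distrib]
  refine Finset.sum_congr rfl fun j _ => ?_
  simp only [Matrix.transpose_add, Matrix.transpose_smul, Matrix.transpose_one, Matrix.mul_add,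
    Matrix.add_mul, Matrix.mul_one, Matrix.mul_smul, Matrix.smul_mul, Matrix.trace_add,
    Matrix.trace_smul, smul_eq_mul]
  ring

end expan

/-! ## The normalized one variable statement -/

section normalized

variable {k m : ℕ}

lemma trace_mul_ct_nonneg (A : Matrix (Fin k) (Fin k) ℂ) :
    0 ≤ (A * Aᴴ).trace.re ∧ ((A * Aᴴ).trace.re = 0 → A = 0) := by
  have h1 : (A * Aᴴ).trace = ∑ i, ∑ j, ((‖A i j‖ ^ 2 : ℝ) : ℂ) := by
    rw [Matrix.trace]
    refine Finset.sum_congr rfl fun i _ => ?_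
    rw [Matrix.diag_apply, Matrix.mul_apply]
    refine Finset.sum_congr rfl fun j _ => ?_
    rw [Matrix.conjTranspose_apply]
    have := Complex.mul_conj (A i j)
    rw [Complex.normSq_eq_norm_sq] at this
    exact this
  have h2 : (A * Aᴴ).trace.re = ∑ i, ∑ j, ‖A i j‖ ^ 2 := by
    rw [h1]
    simp only [← Complex.ofReal_sum, Complex.ofReal_re]
  rw [h2]
  refine ⟨Finset.sum_nonneg fun i _ => Finset.sum_nonneg fun j _ => by positivity, fun h => ?_⟩
  ext i j
  have h3 := (Finset.sum_eq_zero_iff_of_nonneg (fun i _ =>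
    Finset.sum_nonneg fun j _ => by positivity)).1 h i (Finset.mem_univ _)
  have h4 := (Finset.sum_eq_zero_iff_of_nonneg (fun j _ => by positivity)).1 h3 j
    (Finset.mem_univ _)
  simpa using h4

lemma trace_aux {x : Matrix (Fin k) (Fin k) ℂ} (hx : xᵀ = x) (y : Matrix (Fin k) (Fin k) ℂ) :
    ((cj x * cj y) * (cj x * cj y)ᴴ).trace = (x * cj x * (cj y * yᵀ)).trace := by
  rw [conjTranspose_eq, cj_mul, cj_cj, cj_cj, Matrix.transpose_mul, hx,
    ← Matrix.mul_assoc, Matrix.trace_mul_comm]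
  simp only [Matrix.mul_assoc]

theorem lemA (hALGP : S_ALGP) (hHSP : S_HSP) (L : ℂ → Matrix (Fin k) (Fin (2 * k)) ℂ)
    (L1 : Matrix (Fin k) (Fin (2 * k)) ℂ) (R : ℂ → Matrix (Fin k) (Fin (2 * k)) ℂ)
    (Om : Matrix (Fin (2 * k)) (Fin (2 * k)) ℝ) (hR : ContinuousAt R 0)
    (hL : ∀ ζ, L ζ = L 0 + ζ • L1 + ζ ^ 2 • R ζ) (hpol : ∀ᶠ ζ in 𝓝 (0 : ℂ), PolM (L ζ) Om)
    (hK0 : hiM (L 0) Om = 1) (hn : L1 * toC Om * (cj (L 0))ᵀ = 0)
    (hσ : (L1 * toC Om * (L 0)ᵀ)ᵀ = L1 * toC Om * (L 0)ᵀ)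
    (s : Fin m → ℂ → Matrix (Fin k) (Fin k) ℂ)
    (hsd : ∀ i p q, ∀ᶠ ζ in 𝓝 (0 : ℂ), DifferentiableAt ℂ (fun ζ => s i ζ p q) ζ)
    (hss : ∀ᶠ ζ in 𝓝 (0 : ℂ), ∀ i, (s i ζ)ᵀ = s i ζ)
    (hN : ∀ i j, (s i 0 * cj (s j 0)).trace = if i = j then 1 else 0) (u : ℂ → ℝ)
    (hu : Tendsto (fun r : ℝ => (∑ j, u (r * om j) - 4 * u 0) / r ^ 2) (𝓝[>] 0) (𝓝 0))
    (hmax : ∀ᶠ ζ in 𝓝 (0 : ℂ), gram (hiM (L ζ) Om)⁻¹ (fun i => s i ζ) ≠ 0 →
      Real.log ‖gram (hiM (L ζ) Om)⁻¹ (fun i => s i ζ)‖ - 2 * u ζ ≤ - 2 * u 0) :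
    ∀ i, cj (L1 * toC Om * (L 0)ᵀ) * s i 0 = 0 := by
  have hpol0 : PolM (L 0) Om := hpol.self_of_nhds
  have hss0 : ∀ i, (s i 0)ᵀ = s i 0 := hss.self_of_nhds
  set Oc := toC Om with hOc
  have hOcr : cj Oc = Oc := by
    ext i j; simp [cj, hOc, toC]
  have hOct : Ocᵀ = - Oc := by
    ext i j
    have := congrFun (congrFun hpol0.alt i) j
    simp only [Matrix.transpose_apply, Matrix.neg_apply] at this
    simp [hOc, toC, this]
  -- the dual vectors
  set a : Fin m → Matrix (Fin k) (Fin k) ℂ := fun j => cj (s j 0) with ha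
  have hasym : ∀ j, (a j)ᵀ = a j := fun j => by
    simp only [ha]; rw [← cj_transpose, hss0]
  -- relations for the first order terms
  have h10 : cj L1 * Oc * (L 0)ᵀ = 0 := by
    have := congrArg cj hn
    rw [cj_mul, cj_mul, hOcr, cj_transpose, cj_cj, cj_zero] at this
    exact this
  have h01 : cj (L 0) * Oc * L1ᵀ = 0 := by
    have := congrArg Matrix.transpose hn
    rw [Matrix.transpose_mul, Matrix.transpose_mul, Matrix.transpose_transpose, hOct,
      Matrix.neg_mul, Matrix.mul_neg, Matrix.transpose_zero, neg_eq_zero, ← Matrix.mul_assoc]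
      at this
    exact this
  -- the function `T`
  set T : ℂ → Matrix (Fin m) (Fin m) ℂ := fun ζ => Matrix.of fun i j => (s i ζ * a j).trace
    with hT
  have hT0 : T 0 = 1 := by
    ext i j
    simp only [hT, Matrix.of_apply, ha, hN, Matrix.one_apply]
  have hTd : ∀ᶠ ζ in 𝓝 (0 : ℂ), DifferentiableAt ℂ (fun ζ => (T ζ).det) ζ := by
    have h1 : ∀ᶠ ζ in 𝓝 (0 : ℂ), ∀ i p q, DifferentiableAt ℂ (fun ζ => s i ζ p q) ζ := by
      rw [eventually_all]; intro i
      rw [eventually_all]; intro p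
      rw [eventually_all]; intro q
      exact hsd i p q
    filter_upwards [h1] with ζ h2
    have h3 : ∀ i j, DifferentiableAt ℂ (fun ζ => T ζ i j) ζ := by
      intro i j
      have : (fun ζ => T ζ i j) = fun ζ => ∑ p, ∑ q, s i ζ p q * a j q p := by
        funext ζ
        simp only [hT, Matrix.of_apply, Matrix.trace, Matrix.diag_apply, Matrix.mul_apply]
      rw [this]
      exact DifferentiableAt.fun_sum fun p _ => DifferentiableAt.fun_sum fun q _ =>
        (h2 i p q).mul_const _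
    simp only [Matrix.det_apply]
    exact DifferentiableAt.fun_sum fun σ _ =>
      (DifferentiableAt.fun_finsetProd fun i _ => h3 _ _).const_smul _
  have hlog := log_sum hTd (by rw [hT0, Matrix.det_one])
  have hTne : ∀ᶠ ζ in 𝓝 (0 : ℂ), (T ζ).det ≠ 0 := by
    have hc : ContinuousAt (fun ζ => (T ζ).det) 0 := (hTd.self_of_nhds).continuousAt
    refine hc.eventually_ne ?_
    rw [hT0, Matrix.det_one]; exact one_ne_zero
  -- the pointwise inequality
  have hmain : ∀ᶠ ζ in 𝓝 (0 : ℂ), 2 * Real.log ‖(T ζ).det‖ -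
      (∑ j, (a j * (hiM (L ζ) Om)ᵀ * cj (a j) * hiM (L ζ) Om).trace).re + m - 2 * u ζ ≤
        - 2 * u 0 := by
    filter_upwards [hpol, hss, hTne, hmax] with ζ h1 h2 h3 h4
    obtain ⟨h5, h6⟩ := key hHSP h1.pos h2 hasym h3
    have h7 := h4 h5
    rw [Complex.re_sum]
    linarith
  -- the four points
  set κ : Fin 4 → ℝ → Matrix (Fin k) (Fin k) ℂ := fun j r =>
    kap Om (L 0) L1 (om j) ((r : ℂ), R (r * om j)) with hκ
  have hpt : ∀ j : Fin 4, Tendsto (fun r : ℝ => (r : ℂ) * om j) (𝓝[>] 0) (𝓝 0) := by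
    intro j
    have : Continuous fun r : ℝ => (r : ℂ) * om j := by fun_prop
    have h4 := (this.tendsto 0).mono_left (nhdsWithin_le_nhds (s := Ioi (0 : ℝ)))
    simpa using h4
  have hr0 : Tendsto (fun r : ℝ => (r : ℂ)) (𝓝[>] 0) (𝓝 0) := by
    have h4 := (Complex.continuous_ofReal.tendsto 0).mono_left
      (nhdsWithin_le_nhds (s := Ioi (0 : ℝ)))
    simpa using h4
  have hκl : ∀ j, Tendsto (κ j) (𝓝[>] 0) (𝓝 (kap Om (L 0) L1 (om j) (0, R 0))) := by
    intro j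
    have h1 : Tendsto (fun r : ℝ => ((r : ℂ), R (r * om j))) (𝓝[>] 0) (𝓝 (0, R 0)) :=
      hr0.prodMk_nhds (hR.tendsto.comp (hpt j))
    exact ((kap_cont Om (L 0) L1 (om j)).tendsto _).comp h1
  have hμl : ∀ j, Tendsto (fun r : ℝ => mu a ((r : ℂ), κ j r)) (𝓝[>] 0)
      (𝓝 (mu a (0, kap Om (L 0) L1 (om j) (0, R 0)))) := by
    intro j
    exact ((mu_cont a).tendsto _).comp (hr0.prodMk_nhds (hκl j))
  have hKexp : ∀ (j : Fin 4) (r : ℝ), (∑ i, (a i * (hiM (L (r * om j)) Om)ᵀ * cj (a i) *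
      hiM (L (r * om j)) Om).trace) = m + (r : ℂ) ^ 2 * mu a ((r : ℂ), κ j r) := by
    intro j r
    have h1 : hiM (L (r * om j)) Om = 1 + ((r : ℂ) ^ 2) • κ j r := by
      rw [hL (r * om j)]
      exact hiM_expand (R (r * om j)) (om_conj j) r hK0 h01 h10
    rw [h1, mu_expand]
    congr 1
    have : ∀ i, (a i * cj (a i)).trace = 1 := by
      intro i
      simp only [ha, cj_cj]
      rw [Matrix.trace_mul_comm, hN, if_pos rfl]
    simp [this]
  have hsum : ∀ᶠ r : ℝ in 𝓝[>] 0, (∑ j, 2 * Real.log ‖(T (r * om j)).det‖) / r ^ 2 -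
      ∑ j, (mu a ((r : ℂ), κ j r)).re - 2 * ((∑ j, u (r * om j) - 4 * u 0) / r ^ 2) ≤ 0 := by
    have h1 : ∀ᶠ r : ℝ in 𝓝[>] 0, ∀ j : Fin 4, 2 * Real.log ‖(T (r * om j)).det‖ -
      (∑ i, (a i * (hiM (L (r * om j)) Om)ᵀ * cj (a i) * hiM (L (r * om j)) Om).trace).re + m -
        2 * u (r * om j) ≤ - 2 * u 0 := by
      rw [eventually_all]
      intro j
      exact (hpt j).eventually hmain
    filter_upwards [h1, self_mem_nhdsWithin] with r h2 hr
    have hr2 : (0 : ℝ) < r ^ 2 := by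
      have : (0 : ℝ) < r := hr
      positivity
    have h3 : ∑ j : Fin 4, (2 * Real.log ‖(T (r * om j)).det‖ - r ^ 2 *
        (mu a ((r : ℂ), κ j r)).re - 2 * u (r * om j)) ≤ ∑ j : Fin 4, (- 2 * u 0) := by
      refine Finset.sum_le_sum fun j _ => ?_
      have h4 := h2 j
      rw [hKexp, Complex.add_re, Complex.natCast_re, ← Complex.ofReal_pow,
        Complex.re_ofReal_mul] at h4
      linarith
    rw [Finset.sum_sub_distrib, Finset.sum_sub_distrib, ← Finset.mul_sum (a := r ^ 2),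
      ← Finset.mul_sum (a := 2) (f := fun j => u (r * om j))] at h3
    simp only [Finset.sum_const, Finset.card_univ, Fintype.card_fin, nsmul_eq_mul] at h3
    have h5 : (∑ j, 2 * Real.log ‖(T (r * om j)).det‖) / r ^ 2 -
      ∑ j, (mu a ((r : ℂ), κ j r)).re - 2 * ((∑ j, u (r * om j) - 4 * u 0) / r ^ 2) =
      ((∑ j, 2 * Real.log ‖(T (r * om j)).det‖) - r ^ 2 * ∑ j, (mu a ((r : ℂ), κ j r)).re -
        2 * (∑ j, u (r * om j) - 4 * u 0)) / r ^ 2 := by
      have hrne : r ≠ 0 := by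
        intro h; rw [h] at hr2; simp at hr2
      field_simp
    rw [h5]
    refine div_nonpos_of_nonpos_of_nonneg ?_ hr2.le
    push_cast at h3
    linarith
  have hlim : Tendsto (fun r : ℝ => (∑ j, 2 * Real.log ‖(T (r * om j)).det‖) / r ^ 2 -
      ∑ j, (mu a ((r : ℂ), κ j r)).re - 2 * ((∑ j, u (r * om j) - 4 * u 0) / r ^ 2)) (𝓝[>] 0)
      (𝓝 (0 - ∑ j, (mu a (0, kap Om (L 0) L1 (om j) (0, R 0))).re - 2 * 0)) := by
    refine (hlog.sub (tendsto_finsetSum _ fun j _ => ?_)).sub (hu.const_mul 2)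
    exact (Complex.continuous_re.tendsto _).comp (hμl j)
  have hle := le_of_tendsto hlim hsum
  -- the structure of `L1`
  obtain ⟨-, -, hX, -⟩ := hALGP (L 0) Om hpol0
  obtain ⟨c, hc⟩ := hX (cj L1) h10
  have hL1 : L1 = cj c * cj (L 0) := by
    rw [← cj_cj L1, hc, cj_mul]
  have hP0 : cj (L 0) * Oc * (L 0)ᵀ = (2 * I : ℂ) • (1 : Matrix (Fin k) (Fin k) ℂ) := by
    rw [← hK0]
    unfold hiM
    rw [smul_smul]
    have : (2 * I : ℂ) * (1 / (2 * I)) = 1 := by field_simp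
    rw [this, one_smul]
  have hP0' : L 0 * Oc * (cj (L 0))ᵀ = (-(2 * I) : ℂ) • (1 : Matrix (Fin k) (Fin k) ℂ) := by
    have := congrArg cj hP0
    rw [cj_mul, cj_mul, hOcr, cj_cj, cj_transpose, cj_smul, cj_one] at this
    rw [this]
    congr 1
    simp only [map_mul, Complex.conj_I, map_ofNat]
    ring
  have hσ1 : L1 * Oc * (L 0)ᵀ = (2 * I : ℂ) • cj c := by
    rw [hL1, Matrix.mul_assoc, Matrix.mul_assoc, ← Matrix.mul_assoc (cj (L 0)), hP0,
      Matrix.mul_smul, Matrix.mul_one]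
  have hP11 : cj L1 * Oc * L1ᵀ = (-(2 * I) : ℂ) • (c * (cj c)ᵀ) := by
    rw [hc, hL1, Matrix.transpose_mul]
    have : c * L 0 * Oc * ((cj (L 0))ᵀ * (cj c)ᵀ) = c * (L 0 * Oc * (cj (L 0))ᵀ) * (cj c)ᵀ := by
      simp only [Matrix.mul_assoc]
    rw [this, hP0', Matrix.mul_smul, Matrix.mul_one, Matrix.smul_mul]
  set σ := L1 * Oc * (L 0)ᵀ with hσdef
  have hcσ : cj c = (1 / (2 * I) : ℂ) • σ := by
    rw [hσ1, smul_smul]
    have : (1 / (2 * I)) * (2 * I : ℂ) = 1 := by field_simp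
    rw [this, one_smul]
  have hcσ' : c = (-(1 / (2 * I)) : ℂ) • cj σ := by
    rw [← cj_cj c, hcσ, cj_smul]
    congr 1
    simp only [map_div₀, map_one, map_mul, Complex.conj_I, map_ofNat]
    ring
  have h4P : (4 * (1 / (2 * I)) : ℂ) • (cj L1 * Oc * L1ᵀ) = - (cj σ * σᵀ) := by
    rw [hP11, hcσ, Matrix.transpose_smul]
    nth_rewrite 1 [hcσ']
    rw [Matrix.smul_mul, Matrix.mul_smul, smul_smul, smul_smul, smul_smul]
    have : (4 * (1 / (2 * I)) * (-(2 * I)) * -(1 / (2 * I)) * (1 / (2 * I)) : ℂ) = -1 := by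
      have hI : (I : ℂ) ^ 2 = -1 := Complex.I_sq
      field_simp
      rw [hI]; norm_num
    have h' : ∀ x : ℂ, x = -1 → x • (cj σ * σᵀ) = - (cj σ * σᵀ) := by
      intro x hx; rw [hx, neg_one_smul]
    apply h'
    rw [← this]
  -- the sum over the four points
  have hκs : ∑ j, kap Om (L 0) L1 (om j) (0, R 0) = - (cj σ * σᵀ) := by
    rw [← h4P]
    unfold kap
    rw [← Finset.smul_sum]
    simp only [zero_mul, zero_smul, add_zero, ne_eq, OfNat.ofNat_ne_zero, not_false_eq_true,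
      zero_pow, Finset.sum_add_distrib, ← Finset.sum_smul, om_sum_sq, om_sum_csq,
      Finset.sum_const, Finset.card_univ, Fintype.card_fin]
    rw [← Nat.cast_smul_eq_nsmul ℂ, smul_smul]
    congr 1
    push_cast; ring
  have hμs : ∑ j, (mu a (0, kap Om (L 0) L1 (om j) (0, R 0))).re =
      - ∑ i, (((a i * σ) * (a i * σ)ᴴ).trace.re + ((cj (a i) * cj σ) *
        (cj (a i) * cj σ)ᴴ).trace.re) := by
    have h1 : ∑ j, mu a (0, kap Om (L 0) L1 (om j) (0, R 0)) =
        ∑ i, ((a i * (∑ j, kap Om (L 0) L1 (om j) (0, R 0))ᵀ * cj (a i)).trace +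
          (a i * cj (a i) * (∑ j, kap Om (L 0) L1 (om j) (0, R 0))).trace) := by
      unfold mu
      rw [Finset.sum_comm]
      refine Finset.sum_congr rfl fun i _ => ?_
      simp only [ne_eq, OfNat.ofNat_ne_zero, not_false_eq_true, zero_pow, zero_mul, add_zero]
      rw [Finset.sum_add_distrib, Matrix.transpose_sum, Finset.mul_sum, Finset.sum_mul,
        Matrix.trace_sum, Finset.mul_sum, Matrix.trace_sum]
    rw [hκs] at h1
    rw [← Complex.re_sum, h1, Complex.re_sum, ← Finset.sum_neg_distrib]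
    refine Finset.sum_congr rfl fun i _ => ?_
    have e1 : (a i * σ) * (a i * σ)ᴴ = a i * (cj σ * σᵀ)ᵀ * cj (a i) := by
      rw [conjTranspose_eq, cj_mul, Matrix.transpose_mul, Matrix.transpose_mul,
        Matrix.transpose_transpose, ← cj_transpose (a i), hasym]
      simp only [Matrix.mul_assoc]
    have e2 := trace_aux (hasym i) σ
    rw [e1, e2, Matrix.transpose_neg, Matrix.mul_neg, Matrix.neg_mul, Matrix.trace_neg,
      Matrix.mul_neg, Matrix.trace_neg, Complex.add_re, Complex.neg_re, Complex.neg_re]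
    ring
  rw [hμs] at hle
  intro i
  have hnn : ∀ i, 0 ≤ ((a i * σ) * (a i * σ)ᴴ).trace.re + ((cj (a i) * cj σ) *
        (cj (a i) * cj σ)ᴴ).trace.re := fun i =>
    add_nonneg (trace_mul_ct_nonneg _).1 (trace_mul_ct_nonneg _).1
  have hz : ∑ i, (((a i * σ) * (a i * σ)ᴴ).trace.re + ((cj (a i) * cj σ) *
        (cj (a i) * cj σ)ᴴ).trace.re) = 0 := by
    refine le_antisymm ?_ (Finset.sum_nonneg fun i _ => hnn i)
    linarith
  have hzi := (Finset.sum_eq_zero_iff_of_nonneg (fun i _ => hnn i)).1 hz i (Finset.mem_univ _)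
  have h8 := (trace_mul_ct_nonneg (a i * σ)).1
  have h9 := (trace_mul_ct_nonneg (cj (a i) * cj σ)).1
  have h10 : cj (a i) * cj σ = 0 := (trace_mul_ct_nonneg _).2 (by linarith)
  have h11 := congrArg Matrix.transpose h10
  rw [Matrix.transpose_mul, Matrix.transpose_zero, ← cj_transpose, ← cj_transpose, hasym, hσ]
    at h11
  simpa only [ha, cj_cj] using h11

end normalized

/-! ## Change of frame -/

section frame

variable {k m : ℕ}

lemma cj_toC {a b : Type*} (Q : Matrix a b ℝ) : cj (toC Q) = toC Q := by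
  ext i j; simp [cj, toC]

lemma isUnit_cj {B : Matrix (Fin k) (Fin k) ℂ} (hB : IsUnit B) : IsUnit (cj B) := by
  have h : (cj B) = (Bᵀ)ᴴ := rfl
  rw [h, Matrix.isUnit_conjTranspose, Matrix.isUnit_transpose]
  exact hB

lemma hiM_mul (B : Matrix (Fin k) (Fin k) ℂ) (L : Matrix (Fin k) (Fin (2 * k)) ℂ)
    (Om : Matrix (Fin (2 * k)) (Fin (2 * k)) ℝ) :
    hiM (B * L) Om = cj B * hiM L Om * Bᵀ := by
  unfold hiM
  rw [cj_mul, Matrix.transpose_mul, Matrix.mul_smul, Matrix.smul_mul]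
  congr 1
  simp only [Matrix.mul_assoc]

lemma polM_mul {B : Matrix (Fin k) (Fin k) ℂ} {L : Matrix (Fin k) (Fin (2 * k)) ℂ}
    {Om : Matrix (Fin (2 * k)) (Fin (2 * k)) ℝ} (hB : IsUnit B) (h : PolM L Om) :
    PolM (B * L) Om := by
  refine ⟨h.alt, ?_, ?_⟩
  · have : B * L * toC Om * (B * L)ᵀ = B * (L * toC Om * Lᵀ) * Bᵀ := by
      rw [Matrix.transpose_mul]; simp only [Matrix.mul_assoc]
    rw [this, h.iso, Matrix.mul_zero, Matrix.zero_mul]
  · rw [hiM_mul]
    have h1 : cj B = (Bᵀ)ᴴ := rfl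
    rw [h1]
    refine h.pos.conjTranspose_mul_mul_same ?_
    exact Matrix.mulVec_injective_iff_isUnit.2 ((Matrix.isUnit_transpose (A := B)).2 hB)

lemma hs_tr {B K : Matrix (Fin k) (Fin k) ℂ} (hB : IsUnit B) (s s' : Matrix (Fin k) (Fin k) ℂ) :
    hs (cj B * K * Bᵀ)⁻¹ (B * s * Bᵀ) (B * s' * Bᵀ) = hs K⁻¹ s s' := by
  have hBd : IsUnit B.det := (Matrix.isUnit_iff_isUnit_det _).1 hB
  have hBtd : IsUnit (Bᵀ).det := by rwa [Matrix.det_transpose]
  have hcd : IsUnit (cj B).det := (Matrix.isUnit_iff_isUnit_det _).1 (isUnit_cj hB)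
  have hctd : IsUnit ((cj B)ᵀ).det := by rwa [Matrix.det_transpose]
  unfold hs
  rw [Matrix.mul_inv_rev, Matrix.mul_inv_rev, cj_mul, cj_mul, cj_transpose,
    Matrix.transpose_mul, Matrix.transpose_mul, Matrix.transpose_nonsing_inv (cj B),
    Matrix.transpose_nonsing_inv Bᵀ, Matrix.transpose_transpose]
  have h1 : B * s * Bᵀ * ((Bᵀ)⁻¹ * (K⁻¹ * (cj B)⁻¹)) * (cj B * cj s' * (cj B)ᵀ) *
      ((((cj B)ᵀ)⁻¹ * (K⁻¹)ᵀ) * B⁻¹) =
      B * (s * (Bᵀ * (Bᵀ)⁻¹) * K⁻¹ * ((cj B)⁻¹ * cj B) * cj s' * ((cj B)ᵀ * ((cj B)ᵀ)⁻¹) *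
        (K⁻¹)ᵀ) * B⁻¹ := by
    simp only [Matrix.mul_assoc]
  rw [h1, Matrix.mul_nonsing_inv _ hBtd, Matrix.nonsing_inv_mul _ hcd,
    Matrix.mul_nonsing_inv _ hctd, Matrix.trace_mul_comm, ← Matrix.mul_assoc,
    Matrix.nonsing_inv_mul _ hBd, Matrix.one_mul]
  simp only [Matrix.mul_one]

lemma gm_comb (H : Matrix (Fin k) (Fin k) ℂ) (P : Matrix (Fin m) (Fin m) ℂ)
    (t : Fin m → Matrix (Fin k) (Fin k) ℂ) :
    gm H (fun i => ∑ l, P i l • t l) = P * gm H t * Pᴴ := by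
  ext i j
  simp only [gm, Matrix.of_apply, hs_sum_left, hs_sum_right, Matrix.mul_apply,
    Matrix.conjTranspose_apply, Finset.mul_sum, Finset.sum_mul]
  refine Finset.sum_congr rfl fun a _ => Finset.sum_congr rfl fun c _ => ?_
  simp only [RCLike.star_def]
  ring

lemma hiM_one {L : Matrix (Fin k) (Fin (2 * k)) ℂ} {Om : Matrix (Fin (2 * k)) (Fin (2 * k)) ℝ}
    (h : hiM L Om = 1) :
    L * toC Om * (cj L)ᵀ = (-(2 * I) : ℂ) • (1 : Matrix (Fin k) (Fin k) ℂ) := by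
  have hP0 : cj L * toC Om * Lᵀ = (2 * I : ℂ) • (1 : Matrix (Fin k) (Fin k) ℂ) := by
    rw [← h]
    unfold hiM
    rw [smul_smul]
    have : (2 * I : ℂ) * (1 / (2 * I)) = 1 := by field_simp
    rw [this, one_smul]
  have := congrArg cj hP0
  rw [cj_mul, cj_mul, cj_toC, cj_cj, cj_transpose, cj_smul, cj_one] at this
  rw [this]
  congr 1
  simp only [map_mul, Complex.conj_I, map_ofNat]
  ring

end frame

/-- Packet RK-NPSH. -/
theorem npsh (hALGP : S_ALGP) (hHSP : S_HSP) (hDIFP : S_DIFP) : S_NPSH := by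
  intro b k m D lam Om hP s hsd hss u hu z₁ hz₁ e hlev hg hmax
  obtain ⟨hsv, -⟩ := hDIFP D lam Om hP
  -- the line
  set φ : ℂ → Cn b := fun ζ => z₁ + ζ • e with hφ
  have hφ0 : φ 0 = z₁ := by simp [hφ]
  have hφc : Continuous φ := by fun_prop
  have hφd : ∀ ζ, HasDerivAt φ e ζ := by
    intro ζ
    have h := ((hasDerivAt_id ζ).smul_const e).const_add z₁
    rw [one_smul] at h
    exact h
  have hφt : Tendsto φ (𝓝 0) (𝓝 z₁) := by
    have := hφc.tendsto 0
    rwa [hφ0] at this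
  have hφD : ∀ᶠ ζ in 𝓝 (0 : ℂ), φ ζ ∈ D := hφt.eventually (hP.isOpen.mem_nhds hz₁)
  -- expansion of the periods
  have hcomp : ∀ f : Cn b → ℂ, DifferentiableOn ℂ f D →
      ∀ᶠ ζ in 𝓝 (0 : ℂ), DifferentiableAt ℂ (fun ζ => f (φ ζ)) ζ := by
    intro f hf
    filter_upwards [hφD] with ζ h
    exact (hf.differentiableAt (hP.isOpen.mem_nhds h)).comp ζ (hφd ζ).differentiableAt
  have hlamd : ∀ j (p : Fin k), DifferentiableOn ℂ (fun z => lam j z p) D := fun j p =>
    (differentiableOn_pi.1 (hP.holo j)) p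
  choose F hFc hFe using fun (p : Fin k) (j : Fin (2 * k)) => tay (hcomp _ (hlamd j p))
  set L0 := Lm lam z₁ with hL0
  set L1 := dL lam z₁ e with hL1
  set R0 : ℂ → Matrix (Fin k) (Fin (2 * k)) ℂ := fun ζ => Matrix.of fun p j => F p j ζ with hR0
  have hR0c : ContinuousAt R0 0 := by
    refine continuousAt_pi.2 fun p => continuousAt_pi.2 fun j => ?_
    exact hFc p j
  have hder : ∀ p j, deriv (fun ζ => lam j (φ ζ) p) 0 = L1 p j := by
    intro p j
    have h1 : HasFDerivAt (lam j) (fderiv ℂ (lam j) z₁) (φ 0) := by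
      rw [hφ0]
      exact ((hP.holo j).differentiableAt (hP.isOpen.mem_nhds hz₁)).hasFDerivAt
    have h2 := h1.comp_hasDerivAt (0 : ℂ) (hφd 0)
    exact ((hasDerivAt_pi.1 h2) p).deriv
  have hLexp : ∀ ζ, Lm lam (φ ζ) = L0 + ζ • L1 + ζ ^ 2 • R0 ζ := by
    intro ζ
    ext p j
    have := hFe p j ζ
    rw [hder, hφ0] at this
    simp only [Matrix.add_apply, Matrix.smul_apply, smul_eq_mul]
    exact this
  have hpol0 : PolM L0 Om := hP.pol z₁ hz₁
  -- normalization of the frame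
  obtain ⟨C, hCu, hC⟩ := factor hpol0.pos
  have hCd : IsUnit C.det := (Matrix.isUnit_iff_isUnit_det _).1 hCu
  have hCC : C * C⁻¹ = 1 := Matrix.mul_nonsing_inv _ hCd
  set B0 : Matrix (Fin k) (Fin k) ℂ := (C⁻¹)ᵀ with hB0
  have hB0u : IsUnit B0 := by
    rw [hB0, Matrix.isUnit_transpose]
    exact (Matrix.isUnit_nonsing_inv_iff (A := C)).2 hCu
  have hBK : cj B0 * hiM L0 Om * B0ᵀ = 1 := by
    have h1 : cj B0 = (C⁻¹)ᴴ := rfl
    rw [h1, hC, hB0, Matrix.transpose_transpose]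
    have : (C⁻¹)ᴴ * (Cᴴ * C) * C⁻¹ = (C * C⁻¹)ᴴ * (C * C⁻¹) := by
      rw [Matrix.conjTranspose_mul]; simp only [Matrix.mul_assoc]
    rw [this, hCC, Matrix.conjTranspose_one, Matrix.one_mul]
  have hK1 : hiM (B0 * L0) Om = 1 := by rw [hiM_mul, hBK]
  have hHb : (hiM L0 Om)⁻¹ = B0ᵀ * cj B0 := by
    refine Matrix.inv_eq_left_inv ?_
    have hu1 : IsUnit (B0ᵀ).det := (Matrix.isUnit_iff_isUnit_det _).1
      ((Matrix.isUnit_transpose (A := B0)).2 hB0u)
    have h1 : cj B0 * hiM L0 Om = (B0ᵀ)⁻¹ := by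
      exact (Matrix.inv_eq_left_inv hBK).symm
    rw [Matrix.mul_assoc, h1, Matrix.mul_nonsing_inv _ hu1]
  have hLL := hiM_one hK1
  set X := B0 * L1 * toC Om * (cj (B0 * L0))ᵀ with hX
  set E : Matrix (Fin k) (Fin k) ℂ := (-(1 / (2 * I)) : ℂ) • X with hE
  set B : ℂ → Matrix (Fin k) (Fin k) ℂ := fun ζ => (1 - ζ • E) * B0 with hB
  set L : ℂ → Matrix (Fin k) (Fin (2 * k)) ℂ := fun ζ => B ζ * Lm lam (φ ζ) with hL
  set R : ℂ → Matrix (Fin k) (Fin (2 * k)) ℂ := fun ζ => B0 * R0 ζ - E * (B0 * (L1 + ζ • R0 ζ))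
    with hR
  have hB00 : B 0 = B0 := by simp [hB]
  have hL00 : L 0 = B0 * L0 := by simp only [hL, hB00, hφ0, ← hL0]
  have hRc : ContinuousAt R 0 := by
    have h1 : Continuous fun x : ℂ × Matrix (Fin k) (Fin (2 * k)) ℂ =>
        B0 * x.2 - E * (B0 * (L1 + x.1 • x.2)) := by fun_prop
    exact (h1.continuousAt (x := (0, R0 0))).comp (f := fun ζ : ℂ => (ζ, R0 ζ))
      (continuousAt_id.prodMk hR0c)
  have hLe : ∀ ζ, L ζ = L 0 + ζ • (B0 * L1 - E * (B0 * L0)) + ζ ^ 2 • R ζ := by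
    intro ζ
    rw [hL00]
    simp only [hL, hB, hLexp ζ, hR]
    simp only [Matrix.sub_mul, Matrix.mul_add, Matrix.smul_mul, Matrix.mul_smul,
      Matrix.one_mul, Matrix.mul_assoc, smul_sub, smul_add, smul_smul, pow_two]
    ext p j
    simp only [Matrix.add_apply, Matrix.sub_apply, Matrix.smul_apply, smul_eq_mul]
    ring
  have hBu : ∀ᶠ ζ in 𝓝 (0 : ℂ), IsUnit (B ζ) := by
    have h1 : ContinuousAt (fun ζ : ℂ => (1 - ζ • E).det) 0 := by
      have : Continuous fun ζ : ℂ => (1 - ζ • E).det := by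
        refine Continuous.matrix_det ?_
        fun_prop
      exact this.continuousAt
    have h2 : ∀ᶠ ζ in 𝓝 (0 : ℂ), (1 - ζ • E).det ≠ 0 := by
      refine h1.eventually_ne ?_
      simp
    filter_upwards [h2] with ζ h3
    exact ((Matrix.isUnit_iff_isUnit_det _).2 (isUnit_iff_ne_zero.2 h3)).mul hB0u
  -- normalization of the sections
  have hss0 : ∀ i, (s i z₁)ᵀ = s i z₁ := fun i => hss i z₁ hz₁
  have hNpsd := gm_psd hHSP hpol0.pos.inv hss0
  have hNpd : (gm (hiM L0 Om)⁻¹ fun i => s i z₁).PosDef := hNpsd.posDef_iff_det_ne_zero.2 hg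
  obtain ⟨C', hCu', hC'⟩ := factor hNpd
  have hCd' : IsUnit C'.det := (Matrix.isUnit_iff_isUnit_det _).1 hCu'
  have hCC' : C' * C'⁻¹ = 1 := Matrix.mul_nonsing_inv _ hCd'
  set P : Matrix (Fin m) (Fin m) ℂ := (C'⁻¹)ᴴ with hPdef
  have hPu : IsUnit P := by
    rw [hPdef, Matrix.isUnit_conjTranspose]
    exact (Matrix.isUnit_nonsing_inv_iff (A := C')).2 hCu'
  have hPN : P * (gm (hiM L0 Om)⁻¹ fun i => s i z₁) * Pᴴ = 1 := by
    rw [hC', hPdef, Matrix.conjTranspose_conjTranspose]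
    have : (C'⁻¹)ᴴ * (C'ᴴ * C') * C'⁻¹ = (C' * C'⁻¹)ᴴ * (C' * C'⁻¹) := by
      rw [Matrix.conjTranspose_mul]; simp only [Matrix.mul_assoc]
    rw [this, hCC', Matrix.conjTranspose_one, Matrix.one_mul]
  set t : Fin m → ℂ → Matrix (Fin k) (Fin k) ℂ := fun l ζ => B ζ * s l (φ ζ) * (B ζ)ᵀ with ht
  set sh : Fin m → ℂ → Matrix (Fin k) (Fin k) ℂ := fun i ζ => ∑ l, P i l • t l ζ with hsh
  have hts : ∀ ζ, φ ζ ∈ D → ∀ l, (t l ζ)ᵀ = t l ζ := by
    intro ζ h l
    simp only [ht, Matrix.transpose_mul, Matrix.transpose_transpose, hss l _ h, Matrix.mul_assoc]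
  have hgm : ∀ ζ, IsUnit (B ζ) → gm (hiM (L ζ) Om)⁻¹ (fun l => t l ζ) =
      gm (hiM (Lm lam (φ ζ)) Om)⁻¹ (fun l => s l (φ ζ)) := by
    intro ζ h
    ext i j
    simp only [gm, Matrix.of_apply, hL, hiM_mul]
    exact hs_tr h _ _
  have hlam := lemA hALGP hHSP L (B0 * L1 - E * (B0 * L0)) R Om hRc hLe ?_ (by rw [hL00, hK1]) ?_
    ?_ sh ?_ ?_ ?_ (fun ζ => u (φ ζ)) ?_ ?_
  rotate_left
  · filter_upwards [hφD, hBu] with ζ h1 h2
    exact polM_mul h2 (hP.pol _ h1)
  · rw [hL00, Matrix.sub_mul, Matrix.sub_mul]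
    have : E * (B0 * L0) * toC Om * (cj (B0 * L0))ᵀ =
        E * ((B0 * L0) * toC Om * (cj (B0 * L0))ᵀ) := by simp only [Matrix.mul_assoc]
    rw [this, hLL, ← hX, Matrix.mul_smul, Matrix.mul_one, hE, smul_smul]
    have h1 : (-(2 * I) * -(1 / (2 * I)) : ℂ) = 1 := by field_simp
    rw [h1, one_smul, sub_self]
  · -- symmetry of the derivative
    have h1 : (B0 * L1 - E * (B0 * L0)) * toC Om * (L 0)ᵀ = B0 * sV lam Om z₁ e * B0ᵀ := by
      rw [hL00, Matrix.sub_mul, Matrix.sub_mul, Matrix.transpose_mul]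
      have h2 : E * (B0 * L0) * toC Om * (L0ᵀ * B0ᵀ) = E * B0 * (L0 * toC Om * L0ᵀ) * B0ᵀ := by
        simp only [Matrix.mul_assoc]
      rw [h2, hpol0.iso, Matrix.mul_zero, Matrix.zero_mul, sub_zero]
      unfold sV
      simp only [Matrix.mul_assoc, ← hL0, ← hL1]
    rw [h1, Matrix.transpose_mul, Matrix.transpose_mul, Matrix.transpose_transpose,
      hsv z₁ hz₁ e, Matrix.mul_assoc]
  · -- holomorphy of the sections
    intro i p q
    have h1 : ∀ l a c, ∀ᶠ ζ in 𝓝 (0 : ℂ), DifferentiableAt ℂ (fun ζ => s l (φ ζ) a c) ζ :=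
      fun l a c => hcomp _ (hsd l a c)
    have h2 : ∀ᶠ ζ in 𝓝 (0 : ℂ), ∀ l a c, DifferentiableAt ℂ (fun ζ => s l (φ ζ) a c) ζ := by
      rw [eventually_all]; intro l
      rw [eventually_all]; intro a
      rw [eventually_all]; intro c
      exact h1 l a c
    have hBe : ∀ a c, Differentiable ℂ (fun ζ => B ζ a c) := by
      intro a c
      have : (fun ζ => B ζ a c) = fun ζ => B0 a c - ζ * (E * B0) a c := by
        funext ζ
        simp only [hB, Matrix.sub_mul, Matrix.one_mul, Matrix.smul_mul, Matrix.sub_apply,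
          Matrix.smul_apply, smul_eq_mul]
      rw [this]
      fun_prop
    filter_upwards [h2] with ζ h3
    have h4 : (fun ζ => sh i ζ p q) = fun ζ => ∑ l, P i l * ∑ c, (∑ a, B ζ p a *
        s l (φ ζ) a c) * B ζ q c := by
      funext ζ
      simp only [hsh, ht, Matrix.sum_apply, Matrix.smul_apply, smul_eq_mul, Matrix.mul_apply,
        Matrix.transpose_apply]
    rw [h4]
    refine DifferentiableAt.fun_sum fun l _ => DifferentiableAt.const_mul ?_ _
    refine DifferentiableAt.fun_sum fun c _ => DifferentiableAt.mul ?_ (hBe q c ζ)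
    exact DifferentiableAt.fun_sum fun a _ => (hBe p a ζ).mul (h3 l a c)
  · -- symmetry of the sections
    filter_upwards [hφD] with ζ h i
    exact sum_symm (hts ζ h) _
  · -- orthonormality
    intro i j
    have h1 := hgm 0 (by rw [hB00]; exact hB0u)
    rw [hL00, hK1, inv_one, hφ0] at h1
    have h2 : gm 1 (fun i => sh i 0) = 1 := by
      simp only [hsh]
      rw [gm_comb, h1, hPN]
    have h3 := congrFun (congrFun h2 i) j
    simp only [gm, Matrix.of_apply, hs, Matrix.mul_one, Matrix.transpose_one,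
      Matrix.one_apply] at h3
    exact h3
  · -- the second difference
    have h1 := u_sum hP.isOpen hu hz₁ hlev
    simp only [hφ0]
    exact h1
  · -- the maximum
    have h1 : ∀ᶠ ζ in 𝓝 (0 : ℂ), Real.log ‖gram (Hb lam Om (φ ζ)) (fun i => s i (φ ζ))‖ -
        2 * u (φ ζ) ≤ Real.log ‖gram (Hb lam Om z₁) (fun i => s i z₁)‖ - 2 * u z₁ :=
      hφt.eventually hmax
    filter_upwards [h1, hBu] with ζ h2 h3 h4
    have h5 : gram (hiM (L ζ) Om)⁻¹ (fun i => sh i ζ) =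
        P.det * gram (Hb lam Om (φ ζ)) (fun i => s i (φ ζ)) * conj P.det := by
      rw [gram_eq, gram_eq]
      simp only [hsh]
      rw [gm_comb, hgm ζ h3, Matrix.det_mul, Matrix.det_mul, Matrix.det_conjTranspose P]
      rfl
    rw [h5] at h4 ⊢
    have h6 : P.det ≠ 0 := by
      intro h; apply h4; rw [h]; simp
    have h7 : gram (Hb lam Om (φ ζ)) (fun i => s i (φ ζ)) ≠ 0 := by
      intro h; apply h4; rw [h]; simp
    have h8 : P.det * gram (Hb lam Om z₁) (fun i => s i z₁) * conj P.det = 1 := by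
      have := congrArg Matrix.det hPN
      rw [Matrix.det_mul, Matrix.det_mul, Matrix.det_conjTranspose P, Matrix.det_one] at this
      exact this
    have h9 : Real.log ‖P.det‖ + Real.log ‖gram (Hb lam Om z₁) (fun i => s i z₁)‖ +
        Real.log ‖P.det‖ = 0 := by
      have := congrArg (fun x : ℂ => Real.log ‖x‖) h8
      simp only [norm_mul, RCLike.norm_conj, norm_one, Real.log_one] at this
      rw [Real.log_mul (mul_ne_zero (norm_ne_zero_iff.2 h6) (norm_ne_zero_iff.2 hg))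
        (norm_ne_zero_iff.2 h6), Real.log_mul (norm_ne_zero_iff.2 h6)
        (norm_ne_zero_iff.2 hg)] at this
      exact this
    rw [norm_mul, norm_mul, RCLike.norm_conj, Real.log_mul (mul_ne_zero (norm_ne_zero_iff.2 h6)
      (norm_ne_zero_iff.2 h7)) (norm_ne_zero_iff.2 h6), Real.log_mul (norm_ne_zero_iff.2 h6)
        (norm_ne_zero_iff.2 h7), hφ0]
    linarith
  -- the conclusion
  have h1 : (B0 * L1 - E * (B0 * L0)) * toC Om * (L 0)ᵀ = B0 * sV lam Om z₁ e * B0ᵀ := by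
    rw [hL00, Matrix.sub_mul, Matrix.sub_mul, Matrix.transpose_mul]
    have h2 : E * (B0 * L0) * toC Om * (L0ᵀ * B0ᵀ) = E * B0 * (L0 * toC Om * L0ᵀ) * B0ᵀ := by
      simp only [Matrix.mul_assoc]
    rw [h2, hpol0.iso, Matrix.mul_zero, Matrix.zero_mul, sub_zero]
    unfold sV
    simp only [Matrix.mul_assoc, ← hL0, ← hL1]
  rw [h1] at hlam
  set Y : Fin m → Matrix (Fin k) (Fin k) ℂ := fun l =>
    cj (B0 * sV lam Om z₁ e * B0ᵀ) * (B0 * s l z₁ * B0ᵀ) with hY
  have h2 : ∀ i, ∑ l, P i l • Y l = 0 := by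
    intro i
    have := hlam i
    simp only [hsh, ht, hB00, hφ0, Finset.mul_sum, Matrix.mul_smul] at this
    exact this
  have h3 : ∀ l, Y l = 0 := by
    intro l
    have hPd : IsUnit P.det := (Matrix.isUnit_iff_isUnit_det _).1 hPu
    have h4 : ∑ i, P⁻¹ l i • ∑ l', P i l' • Y l' = Y l := by
      simp only [Finset.smul_sum, smul_smul]
      rw [Finset.sum_comm]
      simp only [← Finset.sum_smul]
      have h5 : ∀ l', ∑ i, P⁻¹ l i * P i l' = (1 : Matrix (Fin m) (Fin m) ℂ) l l' := by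
        intro l'
        rw [← Matrix.nonsing_inv_mul P hPd, Matrix.mul_apply]
      simp only [h5, Matrix.one_apply, ite_smul, one_smul, zero_smul]
      simp
    rw [← h4]
    exact Finset.sum_eq_zero fun i _ => by rw [h2 i, smul_zero]
  intro i
  have h4 := h3 i
  have hHbz : Hb lam Om z₁ = B0ᵀ * cj B0 := hHb
  have hcBu := isUnit_cj hB0u
  have hBtu : IsUnit B0ᵀ := (Matrix.isUnit_transpose (A := B0)).2 hB0u
  have h5 : cj B0 * ((cj (sV lam Om z₁ e) * ((cj B0)ᵀ * B0) * s i z₁) * B0ᵀ) = 0 := by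
    rw [← h4]
    simp only [hY, cj_mul, cj_transpose, Matrix.mul_assoc]
  rw [hHbz, Matrix.transpose_mul, Matrix.transpose_transpose]
  rw [hcBu.mul_right_eq_zero, hBtu.mul_left_eq_zero] at h5
  exact h5

end Pool.Agent.Helper79.RK
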